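import Pool.Agent.R574.LS.LP
import Pool.Agent.R574.LS.Sim

set_option autoImplicit false

/-!
# ET0L is a proper subfamily of LP-E0L

Inclusion: the leftmost symbol of the word is a controller which announces the table. Properness:
the grammar of `Pool.Agent.R574.LS.LP` is a propagating left permitting E0L grammar. Its nonempty
words are words `(a b^T)^n` with `T < n`, and all words `(a b^T)^(T+1)` with `1 ≤ T` are among
them. No ET0L grammar generates a language with these properties.
-/

open Pool.Agent.R574.LS in
/-- ET0L is a proper subfamily of LP-E0L: every ET0L language is generated by a left permitting E0L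
grammar, and some (propagating) left permitting E0L grammar over two letters generates a language
which no ET0L grammar generates, not even up to the empty word. -/
theorem Pool.Agent.Results.MP_ab0e6d_lc.ProperInclusion.result :
    (∀ (T : Type) [Finite T] (G : ET0L T),
      ∃ H : LRC T, H.LeftPermitting ∧ H.language = G.language) ∧
    ∃ H : LRC (Fin 2), H.LeftPermitting ∧ H.Propagating ∧
      ∀ G : ET0L (Fin 2), ∃ w : List (Fin 2), w ≠ [] ∧ ¬ (w ∈ G.language ↔ w ∈ H.language) :=
  ⟨fun _ _ G => ⟨Sim.H G, Sim.leftPermitting G, Sim.language_eq G⟩,
    LP.G, LP.leftPermitting, LP.propagating, fun G => by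
      obtain ⟨w, h1, h2⟩ := not_ET0L_K2 LP.G.language LP.sound LP.complete G
      exact ⟨w, h1, h2⟩⟩
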